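import Pool.Agent.H48.ER.Targets
import Pool.Agent.H66.ER2.Defs

/-!
# MP_816b90_co: graphs without clique of size four, top level targets
-/

set_option autoImplicit false

namespace Pool.Agent.H48.ER2

open Pool.Agent.H48.ER Pool.Agent.H52.ER2 Pool.Agent.H66.ER2

/-! ### The statement for one vertex -/

/-- (V1) a vertex which is not a corner, tame, with (F1) and with an outer path. -/
def T_V1 : Prop := ∀ (V : Type) [Finite V] (G : SimpleGraph V) (v : V), Cls G → NCo G v →
  Tame G v → F1 G v → ¬ NOut G v → ∃ x y, G.Adj v x ∧ G.Adj v y ∧ Gd G x y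

/-- (RES) the class is closed under taking induced subgraphs. -/
def T_RES : Prop := ∀ (V : Type) (G : SimpleGraph V) (C : Set V), Cls G → Cls (res G C)

/-- (CC) contraction of an even pair, without odd prisms in the contraction. -/
def T_CC : Prop := ∀ (V : Type) (G : SimpleGraph V) (x y : V), Cls G → EvP G x y →
  NOP (ctr G x y) → Cls (ctr G x y)

/-- (DUC) if all neighbourhoods are cliques then every pair of nonadjacent vertices is good. -/
def T_DUC : Prop := ∀ (V : Type) (G : SimpleGraph V) (x y : V), Cls G →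
  (∀ u, Clq G {w | G.Adj u w}) → x ≠ y → ¬ G.Adj x y → Gd G x y

/-- (CK4) contraction of an even pair creates no clique with four vertices. -/
def T_CK4 : Prop := ∀ (V : Type) (G : SimpleGraph V) (x y : V), EvP G x y → K4F G →
  K4F (ctr G x y)

/-- (VT) a vertex which is not a corner and tame; induction for the subsets of its
neighbourhood. -/
def T_VT : Prop := ∀ (V : Type) [Finite V] (G : SimpleGraph V) (v : V), Cls G → NCo G v →
  Tame G v → ¬ Clq G {w | G.Adj v w} →
  (∀ C : Set V, C ⊆ {w | G.Adj v w} → ¬ Clq G C → ∃ x ∈ C, ∃ y ∈ C, Gd (res G C) x y) →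
  ∃ x y, G.Adj v x ∧ G.Adj v y ∧ Gd G x y

/-! ### Graphs without clique of size four -/

/-- (NCT) if there is a prism then there is a vertex which is not a corner, tame, and whose
neighbourhood is not a clique. -/
def T_NCT : Prop := ∀ (V : Type) [Finite V] (G : SimpleGraph V) (a b : Fin 3 → V)
  (n : Fin 3 → ℕ) (P : Fin 3 → Set V), Cls G → K4F G → Prism G a b n P →
  ∃ v, NCo G v ∧ Tame G v ∧ ¬ Clq G {w | G.Adj v w}

/-- (PAIR) there is a good pair. -/
def T_PAIR : Prop := ∀ (V : Type) [Finite V] (G : SimpleGraph V) (S : Set V), Sup G S → Cls G →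
  K4F G → ¬ Clq G S → ∃ x ∈ S, ∃ y ∈ S, Gd G x y

/-- (CTK) the internal form of the theorem. -/
def T_CTK : Prop := ∀ (V : Type) [Finite V] (G : SimpleGraph V) (S : Set V), Sup G S → Cls G →
  K4F G → CT G S

/-! ### Connection with the problem -/

/-- (HNA) antiholes. -/
def T_HNA : Prop := ∀ (m : ℕ) (G : SimpleGraph (Fin m)), NoAntihole G → NAH G

/-- (INA) induced subgraphs. -/
def T_INA : Prop := ∀ (V W : Type) (G : SimpleGraph V) (e : W ↪ V), Cls G → Cls (G.comap e)

/-- no clique with four vertices, in the form of the problem: every four different vertices contain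
two which are not adjacent -/
def K4Free {m : ℕ} (G : SimpleGraph (Fin m)) : Prop :=
  ∀ a b c d : Fin m, G.Adj a b → G.Adj a c → G.Adj a d → G.Adj b c → G.Adj b d → ¬ G.Adj c d

/-- the theorem for graphs without clique of size four -/
def T_K4M : Prop := ∀ (m : ℕ) (G : SimpleGraph (Fin m)), K4Free G → NoOddHole G →
  NoAntihole G → NoOddPrism G → PerfCon G

/-! ### Assembly -/

theorem res_sup {V : Type} (G : SimpleGraph V) (C : Set V) : Sup (res G C) C :=
  fun _ _ h => ⟨h.1, h.2.1⟩

theorem res_k4 {V : Type} (G : SimpleGraph V) (C : Set V) (h : K4F G) : K4F (res G C) :=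
  fun a b c d h1 h2 h3 h4 h5 h6 => h a b c d h1.2.2 h2.2.2 h3.2.2 h4.2.2 h5.2.2 h6.2.2

theorem res_clq {V : Type} (G : SimpleGraph V) (C : Set V) : Clq (res G C) C ↔ Clq G C :=
  ⟨fun h u hu w hw hne => (h u hu w hw hne).2.2, fun h u hu w hw hne => ⟨hu, hw, h u hu w hw hne⟩⟩

/-- without prisms there is nothing to prove -/
theorem no_prism {V : Type} (G : SimpleGraph V)
    (h : ∀ (a b : Fin 3 → V) (n : Fin 3 → ℕ) (P : Fin 3 → Set V), ¬ Prism G a b n P) (v : V) :
    NCo G v ∧ Tame G v :=
  ⟨fun a b n P hP => (h a b n P hP).elim, fun a b n P hP => (h a b n P hP).elim⟩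

theorem mt_res {V : Type} (G : SimpleGraph V) (v u : V) (C : Set V) (hv : v ∉ C) (hu : u ∉ C) :
    res (mt G v u) C = res G C := by
  ext a b
  constructor
  · rintro ⟨h1, h2, h3⟩
    exact ⟨h1, h2, h3.2.2.1⟩
  · rintro ⟨h1, h2, h3⟩
    refine ⟨h1, h2, ?_, ?_, h3, ?_, ?_⟩
    · rintro rfl; exact hu h1
    · rintro rfl; exact hu h2
    · rintro rfl; exact (hv h1).elim
    · rintro rfl; exact (hv h2).elim

theorem pf_VT (hMEET : T_MEET) (hINH : T_INH) (hG2 : T_G2) (hLFM : T_LFM) (hV1 : T_V1) : T_VT := by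
  intro V _ G v
  -- induction on the number of vertices which are not isolated
  have key : ∀ (N : ℕ) (G : SimpleGraph V), {w | ∃ u, G.Adj w u}.ncard ≤ N → Cls G → NCo G v →
      Tame G v → ¬ Clq G {w | G.Adj v w} →
      (∀ C : Set V, C ⊆ {w | G.Adj v w} → ¬ Clq G C → ∃ x ∈ C, ∃ y ∈ C, Gd (res G C) x y) →
      ∃ x y, G.Adj v x ∧ G.Adj v y ∧ Gd G x y := by
    intro N
    induction N with
    | zero =>
      intro G hN _ _ _ hcl _
      exfalso
      apply hcl
      intro x hx y _ _
      have : x ∈ {w | ∃ u, G.Adj w u} := ⟨v, (show G.Adj v x from hx).symm⟩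
      have h0 : {w | ∃ u, G.Adj w u} = ∅ := (Set.ncard_eq_zero (Set.toFinite _)).mp (by omega)
      rw [h0] at this
      exact this.elim
    | succ N ih =>
      intro G hN hG hc ht hcl hC
      by_cases hF : F1 G v
      · by_cases hO : NOut G v
        · obtain ⟨x, hx, y, hy, hg⟩ := hC _ (Set.Subset.refl _) hcl
          exact ⟨x, y, hx, hy, hG2 V G v x y hG hO hx hy hg⟩
        · exact hV1 V G v hG hc ht hF hO
      · -- a vertex u with two nonadjacent common neighbours
        unfold F1 at hF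
        push Not at hF
        obtain ⟨u, huv, hnu, x, y, hvx, hvy, hux, huy, hxy, hnxy⟩ := hF
        have hG' : Cls (mt G v u) := hMEET V G v u hG (Ne.symm huv) (fun h => hnu h.symm)
        obtain ⟨hc', ht'⟩ := hINH V G v u hG hc ht huv hnu
        have hadj : ∀ w, (mt G v u).Adj v w ↔ G.Adj v w ∧ G.Adj u w := by
          intro w
          constructor
          · rintro ⟨_, _, h3, h4, _⟩
            exact ⟨h3, h4 rfl⟩
          · rintro ⟨h1, h2⟩
            refine ⟨Ne.symm huv, ?_, h1, fun _ => h2, ?_⟩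
            · rintro rfl; exact G.loopless.irrefl _ h2
            · rintro rfl; exact (G.loopless.irrefl _ h1).elim
        have hcard : {w | ∃ z, (mt G v u).Adj w z}.ncard ≤ N := by
          have hsub : {w | ∃ z, (mt G v u).Adj w z} ⊂ {w | ∃ z, G.Adj w z} := by
            refine ⟨fun w hw => ?_, fun hle => ?_⟩
            · obtain ⟨z, hz⟩ := hw
              exact ⟨z, hz.2.2.1⟩
            · obtain ⟨z, hz⟩ := hle (show u ∈ {w | ∃ z, G.Adj w z} from ⟨x, hux⟩)
              exact hz.1 rfl
          have := Set.ncard_lt_ncard hsub (Set.toFinite _)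
          omega
        have hsubN : {w | (mt G v u).Adj v w} ⊆ {w | G.Adj v w} := fun w hw => ((hadj w).mp hw).1
        have hadj2 : ∀ a b, a ≠ v → b ≠ v → a ≠ u → b ≠ u → (G.Adj a b → (mt G v u).Adj a b) := by
          intro a b h1 h2 h3 h4 h
          exact ⟨h3, h4, h, fun e => (h1 e).elim, fun e => (h2 e).elim⟩
        have hcl' : ¬ Clq (mt G v u) {w | (mt G v u).Adj v w} := by
          intro h
          exact hnxy (h x ((hadj x).mpr ⟨hvx, hux⟩) y ((hadj y).mpr ⟨hvy, huy⟩) hxy).2.2.1
        obtain ⟨p, q, hp, hq, hpq⟩ := ih (mt G v u) hcard hG' hc' ht' hcl' (by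
          intro C hCs hCc
          have hvC : v ∉ C := fun h => (mt G v u).loopless.irrefl _ (hCs h)
          have huC : u ∉ C := fun h => (hCs h).2.1 rfl
          have hCc' : ¬ Clq G C := by
            intro h
            apply hCc
            intro a ha b hb hab
            exact hadj2 a b (fun e => hvC (e ▸ ha)) (fun e => hvC (e ▸ hb))
              (fun e => huC (e ▸ ha)) (fun e => huC (e ▸ hb)) (h a ha b hb hab)
          rw [mt_res G v u C hvC huC]
          exact hC C (hCs.trans hsubN) hCc')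
        have hp' := (hadj p).mp hp
        have hq' := (hadj q).mp hq
        exact ⟨p, q, hp'.1, hq'.1, hLFM V G v u p q hG huv hnu hp'.1 hq'.1 hp'.2 hq'.2 hpq⟩
  intro hG hc ht hcl hC
  exact key _ G le_rfl hG hc ht hcl hC

theorem pf_PAIR (hRES : T_RES) (hDUC : T_DUC) (hVT : T_VT) (hNCT : T_NCT) : T_PAIR := by
  intro V _ G S
  have key : ∀ (N : ℕ) (G : SimpleGraph V) (S : Set V), S.ncard ≤ N → Sup G S → Cls G →
      K4F G → ¬ Clq G S → ∃ x ∈ S, ∃ y ∈ S, Gd G x y := by
    intro N
    induction N with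
    | zero =>
      intro G S hN _ _ _ hcl
      exfalso
      apply hcl
      have h0 : S = ∅ := (Set.ncard_eq_zero (Set.toFinite _)).mp (by omega)
      rw [h0]
      intro x hx
      exact hx.elim
    | succ N ih =>
      intro G S hN hS hG hK hcl
      by_cases hn : ∀ u, Clq G {w | G.Adj u w}
      · unfold Clq at hcl
        push Not at hcl
        obtain ⟨x, hx, y, hy, hxy, hnxy⟩ := hcl
        exact ⟨x, hx, y, hy, hDUC V G x y hG hn hxy hnxy⟩
      · have hv : ∃ v, NCo G v ∧ Tame G v ∧ ¬ Clq G {w | G.Adj v w} := by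
          by_cases hP : ∃ (a b : Fin 3 → V) (n : Fin 3 → ℕ) (P : Fin 3 → Set V), Prism G a b n P
          · obtain ⟨a, b, n, P, hP⟩ := hP
            exact hNCT V G a b n P hG hK hP
          · push Not at hn
            obtain ⟨v, hv⟩ := hn
            have hP' : ∀ (a b : Fin 3 → V) (n : Fin 3 → ℕ) (P : Fin 3 → Set V),
                ¬ Prism G a b n P := fun a b n P h => hP ⟨a, b, n, P, h⟩
            exact ⟨v, (no_prism G hP' v).1, (no_prism G hP' v).2, hv⟩
        obtain ⟨v, hc, ht, hvc⟩ := hv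
        obtain ⟨x, y, hx, hy, hg⟩ := hVT V G v hG hc ht hvc (by
          intro C hC hCc
          have hne : C.Nonempty := by
            by_contra h
            rw [Set.not_nonempty_iff_eq_empty] at h
            apply hCc
            rw [h]
            intro x hx
            exact hx.elim
          obtain ⟨c, hc⟩ := hne
          have hvS : v ∈ S := (hS v c (hC hc)).1
          have hsub : C ⊂ S := by
            refine ⟨fun w hw => (hS v w (hC hw)).2, fun hle => ?_⟩
            exact G.loopless.irrefl v (hC (hle hvS))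
          have hlt := Set.ncard_lt_ncard hsub (Set.toFinite _)
          exact ih (res G C) C (by omega) (res_sup G C) (hRES V G C hG) (res_k4 G C hK)
            (fun h => hCc ((res_clq G C).mp h)))
        exact ⟨x, (hS v x hx).2, y, (hS v y hy).2, hg⟩
  exact key _ G S le_rfl

theorem pf_CTK (hPAIR : T_PAIR) (hCK4 : T_CK4) : T_CTK := by
  intro V _ G S
  have key : ∀ (N : ℕ) (G : SimpleGraph V) (S : Set V), S.ncard ≤ N → Sup G S → Cls G →
      K4F G → CT G S := by
    intro N
    induction N with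
    | zero =>
      intro G S hN _ _ _
      have h0 : S = ∅ := (Set.ncard_eq_zero (Set.toFinite _)).mp (by omega)
      refine CT.clique G S ?_
      rw [h0]
      intro x hx
      exact hx.elim
    | succ N ih =>
      intro G S hN hS hG hK
      by_cases hcl : Clq G S
      · exact CT.clique G S hcl
      · obtain ⟨x, hx, y, hy, hxy, hc⟩ := hPAIR V G S hS hG hK hcl
        refine CT.step G S x y hx hy hxy (ih _ _ ?_ ?_ hc (hCK4 V G x y hxy hK))
        · have : (S \ {y}).ncard < S.ncard := Set.ncard_sdiff_singleton_lt_of_mem hy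
          omega
        · rintro a b ⟨h1, h2, h3, h4⟩
          rcases h4 with h | ⟨rfl, h⟩ | ⟨rfl, h⟩
          · exact ⟨⟨(hS a b h).1, h2⟩, ⟨(hS a b h).2, h3⟩⟩
          · exact ⟨⟨hx, h2⟩, ⟨(hS y b h).2, h3⟩⟩
          · exact ⟨⟨(hS a y h).1, h2⟩, ⟨hx, h3⟩⟩
  exact key _ G S le_rfl

theorem pf_K4M (hCTK : T_CTK) (hHNA : T_HNA) (hINA : T_INA) (hHNO : T_HNO) (hHNP : T_HNP)
    (hHCT : T_HCT) : T_K4M := by
  intro m G hK h1 h2 h3 k e P hP
  have hG : Cls G := ⟨hHNO m G h1, hHNP m G h3, hHNA m G h2⟩
  have hG' : Cls (G.comap e) := hINA (Fin m) (Fin k) G e hG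
  refine hHCT k _ (hCTK (Fin k) _ Set.univ (fun _ _ _ => ⟨trivial, trivial⟩) hG' ?_) P hP
  intro a b c d h1 h2 h3 h4 h5 h6
  exact hK _ _ _ _ h1 h2 h3 h4 h5 h6

end Pool.Agent.H48.ER2
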