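import Pool.Agent.H48.ER2.K4
import Pool.Agent.H56.ER2.All
import Pool.Agent.H50.NC.All
import Pool.Agent.H36.ER2.RES
import Pool.Agent.H33.ER2.CK4
import Pool.Agent.H33.ER2.INA
import Pool.Agent.H7.ER2.DUC
import Pool.Agent.H54.ER2.HNA
import Pool.Agent.H52.ER2.G2
import Pool.Agent.H52.ER2.LFM

/-!
# MP_816b90_co: the Everett-Reed conjecture for graphs without a clique of size four, assembly
-/

set_option autoImplicit false

namespace Pool.Agent.H48.ER2

open Pool.Agent.H48.ER Pool.Agent.H52.ER2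

theorem c_CC : T_CC := Pool.Agent.H56.ER2.c_CC

theorem c_RES : T_RES := Pool.Agent.H36.ER2.pf_RES

theorem c_CK4 : T_CK4 := Pool.Agent.H33.ER2.pf_CK4

theorem c_DUC : T_DUC := Pool.Agent.H7.ER2.pf_DUC c_CC

theorem c_HNA : T_HNA := Pool.Agent.H54.ER2.pf_HNA

theorem c_INA : T_INA := Pool.Agent.H33.ER2.pf_INA

theorem c_G2 : T_G2 := Pool.Agent.H52.ER2.pf_G2 c_CC

theorem c_LFM : T_LFM := Pool.Agent.H52.ER2.pf_LFM c_CC

/-- a vertex which is not a corner and tame, and whose neighbourhood is not a clique, has two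
neighbours which form a good pair -/
theorem c_VT : T_VT :=
  pf_VT Pool.Agent.H56.ER2.c_MEET Pool.Agent.H56.ER2.c_INH c_G2 c_LFM Pool.Agent.H56.ER2.c_V1

theorem c_NCT : T_NCT := Pool.Agent.H50.NC.c_NCT

theorem c_PAIR : T_PAIR := pf_PAIR c_RES c_DUC c_VT c_NCT

theorem c_CTK : T_CTK := pf_CTK c_PAIR c_CK4

/-- the Everett-Reed conjecture for graphs without a clique of size four -/
theorem c_K4M : T_K4M := pf_K4M c_CTK c_HNA c_INA c_HNO c_HNP c_HCT

end Pool.Agent.H48.ER2
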