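import Pool.Agent.H48.ER2.Top

/-!
# MP_816b90_co: the two forms of the condition on cliques with four vertices
-/

set_option autoImplicit false

namespace Pool.Agent.H48.ER2

/-- `CliqueFree 4` implies `K4Free` -/
theorem k4free_of {m : ℕ} (G : SimpleGraph (Fin m)) (h : G.CliqueFree 4) : K4Free G := by
  intro a b c d hab hac had hbc hbd hcd
  refine h {a, b, c, d} ?_
  have h1 : G.IsNClique 1 {d} := SimpleGraph.isNClique_one.mpr ⟨d, rfl⟩
  have h2 : G.IsNClique 2 {c, d} := h1.insert (by
    intro x hx
    rw [Finset.mem_singleton.mp hx]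
    exact hcd)
  have h3 : G.IsNClique 3 {b, c, d} := h2.insert (by
    intro x hx
    rcases Finset.mem_insert.mp hx with rfl | hx
    · exact hbc
    · rw [Finset.mem_singleton.mp hx]
      exact hbd)
  exact h3.insert (by
    intro x hx
    rcases Finset.mem_insert.mp hx with rfl | hx
    · exact hab
    rcases Finset.mem_insert.mp hx with rfl | hx
    · exact hac
    · rw [Finset.mem_singleton.mp hx]
      exact had)

end Pool.Agent.H48.ER2
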